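import Mathlib.Combinatorics.SimpleGraph.Coloring.Vertex
import Mathlib.Combinatorics.SimpleGraph.Connectivity.Connected
import Mathlib.Logic.Relation
import Mathlib.Logic.Equiv.Basic

set_option autoImplicit false

/-!
# Kempe recolouring: definitions
-/

namespace Pool.Agent.Q271.KR

open SimpleGraph

variable {V C : Type*}

/-- The spanning subgraph of `G` whose edges are the edges of `G` with both ends coloured in
`{a, b}`; its component at a vertex with colour `a` or `b` is the Kempe chain of that vertex. -/
def bi (G : SimpleGraph V) (c : V → C) (a b : C) : SimpleGraph V where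
  Adj u w := G.Adj u w ∧ (c u = a ∨ c u = b) ∧ (c w = a ∨ c w = b)
  symm := ⟨fun _ _ h => ⟨h.1.symm, h.2.2, h.2.1⟩⟩
  loopless := ⟨fun u h => G.loopless.irrefl u h.1⟩

/-- `c'` is obtained from `c` by one Kempe change: for two colours `a ≠ b` and a vertex `x` of
colour `a` or `b`, the colours `a` and `b` are exchanged on the Kempe chain containing `x`, and
nothing else changes. -/
def KempeStep [DecidableEq C] (G : SimpleGraph V) (c c' : V → C) : Prop :=
  ∃ (a b : C) (x : V), a ≠ b ∧ (c x = a ∨ c x = b) ∧ ∀ v : V,
    ((bi G c a b).Reachable x v → c' v = Equiv.swap a b (c v)) ∧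
    (¬ (bi G c a b).Reachable x v → c' v = c v)

/-- Kempe equivalence: some finite sequence of Kempe changes turns `c` into `c'`. -/
def KempeEquiv [DecidableEq C] (G : SimpleGraph V) (c c' : V → C) : Prop :=
  Relation.ReflTransGen (KempeStep G) c c'

end Pool.Agent.Q271.KR
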