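import Mathlib
import Pool.Agent.Q271.KR.Defs

set_option autoImplicit false

/-!
# 3-colourable `C₄`-free graphs with a Kempe frozen `ℓ`-colouring
-/

namespace Pool.Agent.Q271.KR.CFour

open SimpleGraph Pool.Agent.Q271.KR

/-! ### Arithmetic -/

/-- exponents -/
def ex (l : ℕ) (i j : ℕ) (w : ℕ) : ℕ := 2 * (i * l + j) + w

/-- the two differences used between the classes `i < j` -/
def dd (l : ℕ) (i j : ℕ) (w : ℕ) : ℤ := (w : ℤ) + 1 + 3 * 10 ^ ex l i j w

lemma dd_pos (l i j w : ℕ) : 0 < dd l i j w := by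
  unfold dd
  positivity

lemma dd_sep_aux {w w' e e' : ℕ} (hw : w ≤ 1) (h : e < e') :
    4 * ((w : ℤ) + 1 + 3 * 10 ^ e) < (w' : ℤ) + 1 + 3 * 10 ^ e' := by
  obtain ⟨d, rfl⟩ : ∃ d, e' = e + 1 + d := ⟨e' - (e + 1), by omega⟩
  have h1 : (1 : ℤ) ≤ 10 ^ e := one_le_pow₀ (by norm_num)
  have h2 : (1 : ℤ) ≤ 10 ^ d := one_le_pow₀ (by norm_num)
  have h3 : (10 : ℤ) ^ (e + 1 + d) = 10 * (10 ^ e * 10 ^ d) := by ring
  have h4 : (10 : ℤ) ^ e ≤ 10 ^ e * 10 ^ d := by nlinarith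
  have hw' : (w : ℤ) ≤ 1 := by exact_mod_cast hw
  have hw0 : (0 : ℤ) ≤ (w' : ℤ) := by positivity
  rw [h3]
  nlinarith

lemma ex_inj {l i j w i' j' w' : ℕ} (hj : j < l) (hj' : j' < l) (hw : w ≤ 1) (hw' : w' ≤ 1)
    (h : ex l i j w = ex l i' j' w') : i = i' ∧ j = j' ∧ w = w' := by
  unfold ex at h
  have h1 : w = w' := by omega
  have h2 : i * l + j = i' * l + j' := by omega
  have hl : 0 < l := by omega
  have h3 : i = i' := by
    have e1 : (i * l + j) / l = i := by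
      rw [mul_comm, Nat.mul_add_div hl, Nat.div_eq_of_lt hj, add_zero]
    have e2 : (i' * l + j') / l = i' := by
      rw [mul_comm, Nat.mul_add_div hl, Nat.div_eq_of_lt hj', add_zero]
    rw [← e1, ← e2, h2]
  subst h3
  exact ⟨rfl, by omega, h1⟩

/-- The labels `(i, j, w)`. -/
abbrev Lab (l : ℕ) := Fin l × Fin l × Fin 2

def ff (l : ℕ) (L : Lab l) : ℤ := dd l L.1 L.2.1 L.2.2

lemma ff_pos {l : ℕ} (L : Lab l) : 0 < ff l L := dd_pos _ _ _ _

lemma ff_sep {l : ℕ} (L L' : Lab l) (h : L ≠ L') : 4 * ff l L < ff l L' ∨ 4 * ff l L' < ff l L := by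
  have h1 : L.2.2.val ≤ 1 := by omega
  have h2 : L'.2.2.val ≤ 1 := by omega
  rcases lt_trichotomy (ex l L.1 L.2.1 L.2.2) (ex l L'.1 L'.2.1 L'.2.2) with hlt | heq | hgt
  · exact Or.inl (dd_sep_aux h1 hlt)
  · exfalso
    apply h
    obtain ⟨a, b, c⟩ := ex_inj L.2.1.isLt L'.2.1.isLt h1 h2 heq
    exact Prod.ext (Fin.ext a) (Prod.ext (Fin.ext b) (Fin.ext c))
  · exact Or.inr (dd_sep_aux h2 hgt)

/-- a signed label: `true` means `+` -/
def val {l : ℕ} (s : Lab l × Bool) : ℤ := if s.2 then ff l s.1 else - ff l s.1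

/-- two signed labels cancel -/
def Opp {l : ℕ} (s t : Lab l × Bool) : Prop := s.1 = t.1 ∧ s.2 ≠ t.2

lemma arith_max {l : ℕ} (s1 s2 s3 s4 : Lab l × Bool) (h2 : ff l s2.1 ≤ ff l s1.1)
    (h3 : ff l s3.1 ≤ ff l s1.1) (h4 : ff l s4.1 ≤ ff l s1.1)
    (n2 : ¬ Opp s1 s2) (n3 : ¬ Opp s1 s3) (n4 : ¬ Opp s1 s4) :
    val s1 + val s2 + val s3 + val s4 ≠ 0 := by
  have key : ∀ s : Lab l × Bool, ff l s.1 ≤ ff l s1.1 → ¬ Opp s1 s →
      val s = val s1 ∨ (4 * val s < ff l s1.1 ∧ - ff l s1.1 < 4 * val s) := by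
    intro s hs hn
    by_cases he : s1.1 = s.1
    · left
      have : s1.2 = s.2 := by
        by_contra hne
        exact hn ⟨he, hne⟩
      have : s1 = s := Prod.ext he this
      rw [this]
    · right
      have hp := ff_pos s.1
      have hp1 := ff_pos s1.1
      rcases ff_sep s1.1 s.1 he with h | h
      · omega
      · unfold val
        split_ifs <;> omega
  have hp1 := ff_pos s1.1
  have hv : val s1 = ff l s1.1 ∨ val s1 = - ff l s1.1 := by
    unfold val
    split_ifs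
    · exact Or.inl rfl
    · exact Or.inr rfl
  have k2 := key s2 h2 n2
  have k3 := key s3 h3 n3
  have k4 := key s4 h4 n4
  omega

lemma opp_symm {l : ℕ} {s t : Lab l × Bool} (h : Opp s t) : Opp t s := ⟨h.1.symm, h.2.symm⟩

lemma arith {l : ℕ} (s1 s2 s3 s4 : Lab l × Bool) (h : val s1 + val s2 + val s3 + val s4 = 0) :
    Opp s1 s2 ∨ Opp s2 s3 ∨ Opp s3 s4 ∨ Opp s4 s1 ∨ Opp s1 s3 ∨ Opp s2 s4 := by
  by_contra hcon
  push Not at hcon
  obtain ⟨n12, n23, n34, n41, n13, n24⟩ := hcon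
  have n21 : ¬ Opp s2 s1 := fun h => n12 (opp_symm h)
  have n32 : ¬ Opp s3 s2 := fun h => n23 (opp_symm h)
  have n43 : ¬ Opp s4 s3 := fun h => n34 (opp_symm h)
  have n14 : ¬ Opp s1 s4 := fun h => n41 (opp_symm h)
  have n31 : ¬ Opp s3 s1 := fun h => n13 (opp_symm h)
  have n42 : ¬ Opp s4 s2 := fun h => n24 (opp_symm h)
  rcases le_total (ff l s1.1) (ff l s2.1) with a | a <;>
  rcases le_total (ff l s3.1) (ff l s4.1) with b | b
  · rcases le_total (ff l s2.1) (ff l s4.1) with c | c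
    · exact arith_max s4 s1 s2 s3 (by omega) c b n41 n42 n43 (by omega)
    · exact arith_max s2 s1 s3 s4 a (by omega) c n21 n23 n24 (by omega)
  · rcases le_total (ff l s2.1) (ff l s3.1) with c | c
    · exact arith_max s3 s1 s2 s4 (by omega) c b n31 n32 n34 (by omega)
    · exact arith_max s2 s1 s3 s4 a c (by omega) n21 n23 n24 (by omega)
  · rcases le_total (ff l s1.1) (ff l s4.1) with c | c
    · exact arith_max s4 s1 s2 s3 c (by omega) b n41 n42 n43 (by omega)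
    · exact arith_max s1 s2 s3 s4 a (by omega) c n12 n13 n14 h
  · rcases le_total (ff l s1.1) (ff l s3.1) with c | c
    · exact arith_max s3 s1 s2 s4 c (by omega) b n31 n32 n34 (by omega)
    · exact arith_max s1 s2 s3 s4 a c (by omega) n12 n13 n14 h

/-! ### The graph -/

variable (l m : ℕ)

/-- `(i, x)` is adjacent to `(j, x + d i j w)` for `i < j`, `w = 0, 1`. -/
def GG : SimpleGraph (Fin l × ZMod (3 ^ m)) where
  Adj u v := (u.1 < v.1 ∧ ∃ w : Fin 2, v.2 = u.2 + ((dd l u.1 v.1 w : ℤ) : ZMod (3 ^ m))) ∨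
    (v.1 < u.1 ∧ ∃ w : Fin 2, u.2 = v.2 + ((dd l v.1 u.1 w : ℤ) : ZMod (3 ^ m)))
  symm := ⟨fun _ _ h => h.symm⟩
  loopless := ⟨fun u h => by rcases h with h | h <;> exact lt_irrefl _ h.1⟩

variable {l m}

lemma adj_ne {u v : Fin l × ZMod (3 ^ m)} (h : (GG l m).Adj u v) : u.1 ≠ v.1 := by
  rcases h with h | h
  · exact h.1.ne
  · exact h.1.ne'

/-- description of a step along an edge -/
def Desc (u v : Fin l × ZMod (3 ^ m)) (s : Lab l × Bool) : Prop :=
  v.2 = u.2 + ((val s : ℤ) : ZMod (3 ^ m)) ∧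
    ((s.2 = true ∧ u.1 = s.1.1 ∧ v.1 = s.1.2.1) ∨ (s.2 = false ∧ v.1 = s.1.1 ∧ u.1 = s.1.2.1))

lemma exists_desc {u v : Fin l × ZMod (3 ^ m)} (h : (GG l m).Adj u v) : ∃ s, Desc u v s := by
  rcases h with ⟨h1, w, hw⟩ | ⟨h1, w, hw⟩
  · exact ⟨((u.1, v.1, w), true), by simpa [val, ff] using hw, Or.inl ⟨rfl, rfl, rfl⟩⟩
  · refine ⟨((v.1, u.1, w), false), ?_, Or.inr ⟨rfl, rfl, rfl⟩⟩
    rw [hw]
    simp [val, ff]

lemma val_opp {l : ℕ} {s t : Lab l × Bool} (h : Opp s t) : val s + val t = 0 := by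
  obtain ⟨h1, h2⟩ := h
  obtain ⟨sl, sb⟩ := s
  obtain ⟨tl, tb⟩ := t
  simp only at h1 h2
  subst h1
  cases sb <;> cases tb <;> simp_all [val]

lemma consec {u v w : Fin l × ZMod (3 ^ m)} {s t : Lab l × Bool} (h1 : Desc u v s)
    (h2 : Desc v w t) (h : Opp s t) : u = w := by
  have h3 := val_opp h
  obtain ⟨e1, c1⟩ := h1
  obtain ⟨e2, c2⟩ := h2
  have e3 : w.2 = u.2 := by
    rw [e2, e1, add_assoc, ← Int.cast_add, h3]
    simp
  obtain ⟨h4, h5⟩ := h
  rcases c1 with ⟨a1, a2, a3⟩ | ⟨a1, a2, a3⟩ <;> rcases c2 with ⟨b1, b2, b3⟩ | ⟨b1, b2, b3⟩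
  · exact absurd (a1.trans b1.symm) h5
  · exact Prod.ext (by rw [a2, b2, h4]) e3.symm
  · exact Prod.ext (by rw [a3, b3, h4]) e3.symm
  · exact absurd (a1.trans b1.symm) h5

lemma opposite {u v w x : Fin l × ZMod (3 ^ m)} {s t : Lab l × Bool} (h1 : Desc u v s)
    (h2 : Desc w x t) (h : Opp s t) : v.1 = w.1 := by
  obtain ⟨e1, c1⟩ := h1
  obtain ⟨e2, c2⟩ := h2
  obtain ⟨h4, h5⟩ := h
  rcases c1 with ⟨a1, a2, a3⟩ | ⟨a1, a2, a3⟩ <;> rcases c2 with ⟨b1, b2, b3⟩ | ⟨b1, b2, b3⟩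
  · exact absurd (a1.trans b1.symm) h5
  · rw [a3, b3, h4]
  · rw [a2, b2, h4]
  · exact absurd (a1.trans b1.symm) h5

lemma val_lt {B : ℤ} (hB : ∀ L : Lab l, ff l L < B) (s : Lab l × Bool) : |val s| < B := by
  have h := hB s.1
  have hp := ff_pos s.1
  unfold val
  split_ifs
  · rw [abs_of_pos hp]; exact h
  · rw [abs_neg, abs_of_pos hp]; exact h

lemma no_four (hB : ∀ L : Lab l, 4 * ff l L < 3 ^ m) {v1 v2 v3 v4 : Fin l × ZMod (3 ^ m)}
    (h12 : (GG l m).Adj v1 v2) (h23 : (GG l m).Adj v2 v3) (h34 : (GG l m).Adj v3 v4)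
    (h41 : (GG l m).Adj v4 v1) (h13 : v1 ≠ v3) (h24 : v2 ≠ v4) : False := by
  obtain ⟨s1, d1⟩ := exists_desc h12
  obtain ⟨s2, d2⟩ := exists_desc h23
  obtain ⟨s3, d3⟩ := exists_desc h34
  obtain ⟨s4, d4⟩ := exists_desc h41
  have hsum : (((val s1 + val s2 + val s3 + val s4 : ℤ)) : ZMod (3 ^ m)) = 0 := by
    have e1 := d1.1
    have e2 := d2.1
    have e3 := d3.1
    have e4 := d4.1
    rw [e3, e2, e1] at e4
    push_cast
    have : v1.2 + ((val s1 : ZMod (3 ^ m)) + val s2 + val s3 + val s4) = v1.2 + 0 := by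
      rw [add_zero]
      conv_rhs => rw [e4]
      ring
    exact add_left_cancel this
  have hz : val s1 + val s2 + val s3 + val s4 = 0 := by
    rw [ZMod.intCast_zmod_eq_zero_iff_dvd] at hsum
    refine Int.eq_zero_of_abs_lt_dvd hsum ?_
    have hb : ∀ s : Lab l × Bool, 4 * |val s| < 3 ^ m := by
      intro s
      have h := hB s.1
      have hp := ff_pos s.1
      unfold val
      split_ifs
      · rw [abs_of_pos hp]; exact h
      · rw [abs_neg, abs_of_pos hp]; exact h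
    have b1 := hb s1
    have b2 := hb s2
    have b3 := hb s3
    have b4 := hb s4
    have t1 := abs_add_le (val s1 + val s2 + val s3) (val s4)
    have t2 := abs_add_le (val s1 + val s2) (val s3)
    have t3 := abs_add_le (val s1) (val s2)
    push_cast
    linarith
  rcases arith s1 s2 s3 s4 hz with h | h | h | h | h | h
  · exact h13 (consec d1 d2 h)
  · exact h24 (consec d2 d3 h)
  · exact h13 (consec d3 d4 h).symm
  · exact h24 (consec d4 d1 h).symm
  · exact adj_ne h23 (opposite d1 d3 h)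
  · exact adj_ne h34 (opposite d2 d4 h)

/-! ### The 3-colouring -/

lemma dd_mod (l i j : ℕ) (w : Fin 2) : ((dd l i j w : ℤ) : ZMod 3) ≠ 0 := by
  have h : ((dd l i j w : ℤ) : ZMod 3) = ((w.val : ℕ) : ZMod 3) + 1 := by
    unfold dd
    push_cast
    have : (3 : ZMod 3) = 0 := rfl
    rw [this]
    ring
  rw [h]
  fin_cases w <;> decide

lemma colorable_three (hm : 1 ≤ m) : (GG l m).Colorable 3 := by
  have hdvd : 3 ∣ 3 ^ m := dvd_pow_self 3 (by omega)
  let φ : ZMod (3 ^ m) →+* ZMod 3 := ZMod.castHom hdvd (ZMod 3)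
  refine ⟨Coloring.mk (fun v => (φ v.2 : Fin 3)) ?_⟩
  intro u v h he
  have he' : φ u.2 = φ v.2 := he
  rcases h with ⟨-, w, hw⟩ | ⟨-, w, hw⟩
  · rw [hw, map_add, map_intCast] at he'
    exact dd_mod l u.1 v.1 w (by simpa using he'.symm)
  · rw [hw, map_add, map_intCast] at he'
    exact dd_mod l v.1 u.1 w (by simpa using he')

/-! ### The frozen colouring -/

lemma unit_diff (l i j : ℕ) : IsUnit (((dd l i j 1 - dd l i j 0 : ℤ)) : ZMod (3 ^ m)) := by
  rw [ZMod.coe_int_isUnit_iff_isCoprime]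
  have h : IsCoprime (dd l i j 1 - dd l i j 0) (3 : ℤ) := by
    unfold dd
    push_cast
    refine ⟨1, - (10 ^ ex l i j 1 - 10 ^ ex l i j 0), by ring⟩
  have := (h.symm.pow_left (m := m))
  simpa using this

/-- the colouring by the first coordinate -/
def frozen (l m : ℕ) : (GG l m).Coloring (Fin l) :=
  Coloring.mk (fun v => v.1) (fun {_ _} h => adj_ne h)

/-- Within the classes `i < j`, moving two steps shifts the second coordinate by the difference. -/
lemma shift {c : Fin l × ZMod (3 ^ m) → Fin l} {a b : Fin l} {i j : Fin l} (hij : i < j)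
    (hc : ∀ v : Fin l × ZMod (3 ^ m), (v.1 = i ∨ v.1 = j) → (c v = a ∨ c v = b))
    (x : ZMod (3 ^ m)) (n : ℕ) :
    (bi (GG l m) c a b).Reachable (i, x)
      (i, x + n * ((dd l i j 1 - dd l i j 0 : ℤ) : ZMod (3 ^ m))) := by
  induction n with
  | zero => simp
  | succ n ih =>
    refine ih.trans ?_
    set y := x + n * ((dd l i j 1 - dd l i j 0 : ℤ) : ZMod (3 ^ m)) with hy
    have h1 : (bi (GG l m) c a b).Adj (i, y) (j, y + ((dd l i j 1 : ℤ) : ZMod (3 ^ m))) :=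
      ⟨Or.inl ⟨hij, 1, rfl⟩, hc _ (Or.inl rfl), hc _ (Or.inr rfl)⟩
    have h2 : (bi (GG l m) c a b).Adj (i, x + (n + 1 : ℕ) *
        ((dd l i j 1 - dd l i j 0 : ℤ) : ZMod (3 ^ m)))
        (j, y + ((dd l i j 1 : ℤ) : ZMod (3 ^ m))) := by
      refine ⟨Or.inl ⟨hij, 0, ?_⟩, hc _ (Or.inl rfl), hc _ (Or.inr rfl)⟩
      simp only [hy]
      push_cast
      simp only [Fin.val_zero]
      ring
    exact h1.reachable.trans h2.symm.reachable

lemma conn_lt {c : Fin l × ZMod (3 ^ m) → Fin l} {a b : Fin l} {i j : Fin l} (hij : i < j)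
    (hc : ∀ v : Fin l × ZMod (3 ^ m), (v.1 = i ∨ v.1 = j) → (c v = a ∨ c v = b))
    (x y : ZMod (3 ^ m)) : (bi (GG l m) c a b).Reachable (i, x) (i, y) := by
  obtain ⟨u, hu⟩ := unit_diff (m := m) l i j
  have h := shift hij hc x (((y - x) * ((u⁻¹ : (ZMod (3 ^ m))ˣ) : ZMod (3 ^ m))).val)
  have e : x + (((((y - x) * ((u⁻¹ : (ZMod (3 ^ m))ˣ) : ZMod (3 ^ m))).val : ℕ)) : ZMod (3 ^ m)) *
      ((dd l i j 1 - dd l i j 0 : ℤ) : ZMod (3 ^ m)) = y := by
    rw [← hu, ZMod.natCast_zmod_val, mul_assoc, Units.inv_mul]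
    ring
  rw [e] at h
  exact h

lemma conn {c : Fin l × ZMod (3 ^ m) → Fin l} {a b : Fin l} {i j : Fin l} (hij : i ≠ j)
    (hc : ∀ v : Fin l × ZMod (3 ^ m), (v.1 = i ∨ v.1 = j) → (c v = a ∨ c v = b))
    (u v : Fin l × ZMod (3 ^ m)) (hu : u.1 = i ∨ u.1 = j) (hv : v.1 = i ∨ v.1 = j) :
    (bi (GG l m) c a b).Reachable u v := by
  wlog hlt : i < j generalizing i j
  · exact this (i := j) (j := i) hij.symm (fun v h => hc v h.symm) hu.symm hv.symm
      (lt_of_le_of_ne (not_lt.mp hlt) hij.symm)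
  have key : ∀ w : Fin l × ZMod (3 ^ m), (w.1 = i ∨ w.1 = j) →
      (bi (GG l m) c a b).Reachable w (i, 0) := by
    rintro ⟨w1, w2⟩ (h | h)
    · simp only at h
      subst h
      exact conn_lt hlt hc w2 0
    · simp only at h
      subst h
      have h1 : (bi (GG l m) c a b).Adj (i, w2 - ((dd l i w1 0 : ℤ) : ZMod (3 ^ m))) (w1, w2) :=
        ⟨Or.inl ⟨hlt, 0, by simp⟩, hc _ (Or.inl rfl), hc _ (Or.inr rfl)⟩
      exact h1.symm.reachable.trans (conn_lt hlt hc _ 0)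
  exact (key u hu).trans (key v hv).symm

/-- All colourings Kempe equivalent to the frozen one are colour permutations of it. -/
lemma frozen_equiv {c : Fin l × ZMod (3 ^ m) → Fin l}
    (h : KempeEquiv (GG l m) (frozen l m) c) :
    ∃ π : Equiv.Perm (Fin l), ∀ v, c v = π v.1 := by
  induction h with
  | refl => exact ⟨1, fun v => rfl⟩
  | @tail c c' _ hstep ih =>
    obtain ⟨π, hπ⟩ := ih
    obtain ⟨a, b, x, hab, hx, hv⟩ := hstep
    refine ⟨π.trans (Equiv.swap a b), fun v => ?_⟩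
    simp only [Equiv.trans_apply]
    rw [← hπ v]
    by_cases hr : (bi (GG l m) c a b).Reachable x v
    · exact (hv v).1 hr
    · rw [(hv v).2 hr]
      have hne : π.symm a ≠ π.symm b := fun e => hab (π.symm.injective e)
      have hc : ∀ v : Fin l × ZMod (3 ^ m), (v.1 = π.symm a ∨ v.1 = π.symm b) →
          (c v = a ∨ c v = b) := by
        rintro v (h | h)
        · left; rw [hπ, h, Equiv.apply_symm_apply]
        · right; rw [hπ, h, Equiv.apply_symm_apply]
      have hx' : x.1 = π.symm a ∨ x.1 = π.symm b := by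
        rcases hx with h | h
        · left; rw [← h, hπ, Equiv.symm_apply_apply]
        · right; rw [← h, hπ, Equiv.symm_apply_apply]
      have hva : c v ≠ a := by
        intro he
        apply hr
        exact conn hne hc x v hx' (Or.inl (by rw [← he, hπ, Equiv.symm_apply_apply]))
      have hvb : c v ≠ b := by
        intro he
        apply hr
        exact conn hne hc x v hx' (Or.inr (by rw [← he, hπ, Equiv.symm_apply_apply]))
      exact (Equiv.swap_apply_of_ne_of_ne hva hvb).symm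

/-- For every `l ≥ 4` there is a finite 3-colourable graph without 4-cycles which has two
`l`-colourings that are not Kempe equivalent. -/
theorem main (l : ℕ) (hl : 4 ≤ l) :
    ∃ (V : Type) (_ : Fintype V) (G : SimpleGraph V), (cycleGraph 4).Free G ∧ G.Colorable 3 ∧
      ∃ α β : G.Coloring (Fin l), ¬ KempeEquiv G α β := by
  classical
  -- choose the modulus
  obtain ⟨B, hB⟩ : ∃ B : ℤ, ∀ L : Lab l, 4 * ff l L < B := by
    refine ⟨∑ L : Lab l, (4 * ff l L + 1), fun L => ?_⟩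
    have h := Finset.single_le_sum (f := fun L : Lab l => 4 * ff l L + 1) (s := Finset.univ)
      (fun i _ => by have := ff_pos i; positivity) (Finset.mem_univ L)
    omega
  obtain ⟨m, hm⟩ : ∃ m : ℕ, B < 3 ^ m := by
    obtain ⟨m, hm⟩ := pow_unbounded_of_one_lt B.natAbs (show 1 < 3 by norm_num)
    refine ⟨m, ?_⟩
    have h1 : B ≤ (B.natAbs : ℤ) := Int.le_natAbs
    have h2 : (B.natAbs : ℤ) < (3 : ℤ) ^ m := by exact_mod_cast hm
    omega
  have hB' : ∀ L : Lab l, 4 * ff l L < 3 ^ m := fun L => (hB L).trans hm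
  have hm1 : 1 ≤ m := by
    by_contra hlt
    have hm0 : m = 0 := by omega
    subst hm0
    have h1 := hB' (⟨0, by omega⟩, ⟨0, by omega⟩, 0)
    have h2 := ff_pos (l := l) (⟨0, by omega⟩, ⟨0, by omega⟩, 0)
    simp only [pow_zero] at h1
    omega
  have : NeZero (3 ^ m) := ⟨by positivity⟩
  refine ⟨Fin l × ZMod (3 ^ m), inferInstance, GG l m, ?_, colorable_three hm1, frozen l m, ?_⟩
  · rintro ⟨f⟩
    have hadj : ∀ i j : Fin 4, (cycleGraph 4).Adj i j → (GG l m).Adj (f i) (f j) :=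
      fun i j h => f.toHom.map_adj h
    refine no_four hB' (hadj 0 1 (by decide)) (hadj 1 2 (by decide)) (hadj 2 3 (by decide))
      (hadj 3 0 (by decide)) ?_ ?_
    · intro h
      exact absurd (f.injective h) (by decide)
    · intro h
      exact absurd (f.injective h) (by decide)
  · obtain ⟨γ⟩ := colorable_three (l := l) hm1
    refine ⟨(Embedding.completeGraph (Fin.castLEEmb (show 3 ≤ l by omega))).toHom.comp γ, ?_⟩
    intro h
    obtain ⟨π, hπ⟩ := frozen_equiv h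
    -- the colour `3` is not used by the second colouring
    have h3 := hπ (π.symm ⟨3, by omega⟩, 0)
    simp only [Equiv.apply_symm_apply] at h3
    have h4 : (γ (π.symm ⟨3, by omega⟩, 0)).val = 3 := congrArg Fin.val h3
    omega

end Pool.Agent.Q271.KR.CFour
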