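import Mathlib
import Pool.Agent.Q271.KR.Defs

set_option autoImplicit false

/-!
# Kempe equivalence of `(k+1)`-colourings of `k`-colourable graphs with independence number two
-/

namespace Pool.Agent.Q271.KR.ThreeK

open SimpleGraph Pool.Agent.Q271.KR Finset

universe u

variable {V : Type u} {G : SimpleGraph V}

/-! ### Colour permutations -/

section perm

variable {C : Type*} [DecidableEq C]

open Classical in
/-- swap `a` and `b` on all chains of the vertices of a list -/
noncomputable def sw (G : SimpleGraph V) (c : V → C) (a b : C) (L : List V) : V → C := fun v =>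
  if ∃ x ∈ L, (bi G c a b).Reachable x v then Equiv.swap a b (c v) else c v

lemma sw_mem_iff (c : V → C) (a b : C) (L : List V) (v : V) :
    (sw G c a b L v = a ∨ sw G c a b L v = b) ↔ (c v = a ∨ c v = b) := by
  unfold sw
  split_ifs
  · constructor
    · rintro (h | h)
      · right
        rw [← Equiv.swap_apply_left a b] at h
        rw [← Equiv.swap_apply_right a b] at h
        have := (Equiv.swap a b).injective (by simpa using h : Equiv.swap a b (c v) = Equiv.swap a b b)
        exact this
      · left
        have := (Equiv.swap a b).injective (by simpa using h : Equiv.swap a b (c v) = Equiv.swap a b a)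
        exact this
    · rintro (h | h)
      · right; rw [h, Equiv.swap_apply_left]
      · left; rw [h, Equiv.swap_apply_right]
  · exact Iff.rfl

lemma bi_sw (c : V → C) (a b : C) (L : List V) : bi G (sw G c a b L) a b = bi G c a b := by
  ext u w
  show (G.Adj u w ∧ _ ∧ _) ↔ (G.Adj u w ∧ _ ∧ _)
  rw [sw_mem_iff, sw_mem_iff]

lemma sw_equiv (c : V → C) {a b : C} (hab : a ≠ b) (L : List V) :
    KempeEquiv G c (sw G c a b L) := by
  classical
  induction L with
  | nil =>
    have : sw G c a b [] = c := by
      funext v
      simp [sw]
    rw [this]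
    exact Relation.ReflTransGen.refl
  | cons x L ih =>
    by_cases hx : ∃ y ∈ L, (bi G c a b).Reachable y x
    · have : sw G c a b (x :: L) = sw G c a b L := by
        funext v
        unfold sw
        have e : (∃ y ∈ x :: L, (bi G c a b).Reachable y v) ↔
            (∃ y ∈ L, (bi G c a b).Reachable y v) := by
          constructor
          · rintro ⟨y, hy, hr⟩
            rcases List.mem_cons.mp hy with rfl | hy
            · obtain ⟨z, hz, hzr⟩ := hx
              exact ⟨z, hz, hzr.trans hr⟩
            · exact ⟨y, hy, hr⟩
          · rintro ⟨y, hy, hr⟩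
            exact ⟨y, List.mem_cons_of_mem _ hy, hr⟩
        simp only [e]
      rw [this]
      exact ih
    · by_cases hc : c x = a ∨ c x = b
      · refine ih.tail ⟨a, b, x, hab, (sw_mem_iff c a b L x).mpr hc, fun v => ?_⟩
        rw [bi_sw]
        constructor
        · intro hr
          have h1 : ¬ ∃ y ∈ L, (bi G c a b).Reachable y v := by
            rintro ⟨y, hy, hyr⟩
            exact hx ⟨y, hy, hyr.trans hr.symm⟩
          have h2 : ∃ y ∈ x :: L, (bi G c a b).Reachable y v := ⟨x, by simp, hr⟩
          simp only [sw, if_neg h1, if_pos h2]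
        · intro hr
          have e : (∃ y ∈ x :: L, (bi G c a b).Reachable y v) ↔
              (∃ y ∈ L, (bi G c a b).Reachable y v) := by
            constructor
            · rintro ⟨y, hy, hyr⟩
              rcases List.mem_cons.mp hy with rfl | hy
              · exact absurd hyr hr
              · exact ⟨y, hy, hyr⟩
            · rintro ⟨y, hy, hyr⟩
              exact ⟨y, List.mem_cons_of_mem _ hy, hyr⟩
          simp only [sw, e]
      · -- the chain of `x` is just `x`, nothing changes
        have hsub : ∀ v, (bi G c a b).Reachable x v → v = x := by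
          intro v hr
          obtain ⟨p⟩ := hr
          cases p with
          | nil => rfl
          | cons h _ => exact absurd h.2.1 hc
        have : sw G c a b (x :: L) = sw G c a b L := by
          funext v
          by_cases hv : v = x
          · subst hv
            have h2 : ∃ y ∈ v :: L, (bi G c a b).Reachable y v := ⟨v, by simp, Reachable.refl _⟩
            simp only [sw, if_neg hx, if_pos h2]
            push Not at hc
            exact Equiv.swap_apply_of_ne_of_ne hc.1 hc.2
          · have e : (∃ y ∈ x :: L, (bi G c a b).Reachable y v) ↔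
                (∃ y ∈ L, (bi G c a b).Reachable y v) := by
              constructor
              · rintro ⟨y, hy, hyr⟩
                rcases List.mem_cons.mp hy with rfl | hy
                · exact absurd (hsub v hyr) hv
                · exact ⟨y, hy, hyr⟩
              · rintro ⟨y, hy, hyr⟩
                exact ⟨y, List.mem_cons_of_mem _ hy, hyr⟩
            simp only [sw, e]
        rw [this]
        exact ih

lemma swap_equiv [Fintype V] (c : V → C) {a b : C} (hab : a ≠ b) :
    KempeEquiv G c (fun v => Equiv.swap a b (c v)) := by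
  classical
  have h := sw_equiv (G := G) c hab (Finset.univ : Finset V).toList
  have e : sw G c a b (Finset.univ : Finset V).toList = fun v => Equiv.swap a b (c v) := by
    funext v
    unfold sw
    rw [if_pos ⟨v, by simp, Reachable.refl _⟩]
  rwa [e] at h

lemma perm_equiv [Fintype V] [Fintype C] (π : Equiv.Perm C) :
    ∀ c : V → C, KempeEquiv G c (fun v => π (c v)) := by
  induction π using Equiv.Perm.swap_induction_on with
  | one => exact fun c => Relation.ReflTransGen.refl
  | swap_mul f x y hxy ih =>
    intro c
    have h1 := ih c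
    have h2 := swap_equiv (G := G) (fun v => f (c v)) hxy
    exact h1.trans h2

/-- Recolouring a single vertex is a Kempe change. -/
lemma single_step {c : V → C} [DecidableEq V] (hc : ∀ u v, G.Adj u v → c u ≠ c v) {x : V} {u : C}
    (hu : u ≠ c x) (h : ∀ w, G.Adj x w → c w ≠ u) : KempeStep G c (Function.update c x u) := by
  refine ⟨c x, u, x, hu.symm, Or.inl rfl, fun v => ?_⟩
  have hsub : ∀ v, (bi G c (c x) u).Reachable x v → v = x := by
    intro v hr
    obtain ⟨p⟩ := hr
    cases p with
    | nil => rfl
    | cons hadj _ =>
      obtain ⟨h1, -, h2 | h2⟩ := hadj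
      · exact absurd h2.symm (hc _ _ h1)
      · exact absurd h2 (h _ h1)
  constructor
  · intro hr
    rw [hsub v hr, Function.update_self, Equiv.swap_apply_left]
  · intro hr
    have : v ≠ x := by
      rintro rfl
      exact hr (Reachable.refl _)
    rw [Function.update_of_ne this]

/-- Recolouring a single vertex gives a proper colouring. -/
lemma single_proper {c : V → C} [DecidableEq V] (hc : ∀ u v, G.Adj u v → c u ≠ c v) {x : V}
    {u : C} (h : ∀ w, G.Adj x w → c w ≠ u) :
    ∀ v w, G.Adj v w → Function.update c x u v ≠ Function.update c x u w := by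
  intro v w hvw
  by_cases hv : v = x
  · subst hv
    have hw : w ≠ v := hvw.ne'
    rw [Function.update_self, Function.update_of_ne hw]
    exact (h w hvw).symm
  · by_cases hw : w = x
    · subst hw
      rw [Function.update_self, Function.update_of_ne hv]
      exact h v hvw.symm
    · rw [Function.update_of_ne hv, Function.update_of_ne hw]
      exact hc v w hvw

lemma step_symm {c c' : V → C} (h : KempeStep G c c') : KempeStep G c' c := by
  classical
  obtain ⟨a, b, x, hab, hx, h⟩ := h
  have hiff : ∀ v, (c' v = a ∨ c' v = b) ↔ (c v = a ∨ c v = b) := by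
    intro v
    by_cases hr : (bi G c a b).Reachable x v
    · rw [(h v).1 hr]
      constructor
      · rintro (h | h)
        · right
          rw [Equiv.swap_apply_eq_iff, Equiv.swap_apply_left] at h
          exact h
        · left
          rw [Equiv.swap_apply_eq_iff, Equiv.swap_apply_right] at h
          exact h
      · rintro (h | h)
        · right; rw [h, Equiv.swap_apply_left]
        · left; rw [h, Equiv.swap_apply_right]
    · rw [(h v).2 hr]
  have hbi : bi G c' a b = bi G c a b := by
    ext u w
    show (G.Adj u w ∧ _ ∧ _) ↔ (G.Adj u w ∧ _ ∧ _)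
    rw [hiff, hiff]
  refine ⟨a, b, x, hab, (hiff x).mpr hx, fun v => ?_⟩
  rw [hbi]
  constructor
  · intro hr
    rw [(h v).1 hr, Equiv.swap_apply_self]
  · intro hr
    exact ((h v).2 hr).symm

lemma equiv_symm {c c' : V → C} (h : KempeEquiv G c c') : KempeEquiv G c' c := by
  induction h with
  | refl => exact Relation.ReflTransGen.refl
  | tail _ hstep ih => exact (Relation.ReflTransGen.single (step_symm hstep)).trans ih

end perm

/-! ### Independence number two -/

/-- no independent triple -/
def NoTriple (G : SimpleGraph V) : Prop :=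
  ∀ x y z : V, x ≠ y → y ≠ z → x ≠ z → G.Adj x y ∨ G.Adj y z ∨ G.Adj x z

lemma noTriple_of (h : IsEmpty ((⊥ : SimpleGraph (Fin 3)) ↪g G)) : NoTriple G := by
  intro x y z hxy hyz hxz
  by_contra hcon
  push Not at hcon
  obtain ⟨h1, h2, h3⟩ := hcon
  apply h.false
  refine ⟨⟨![x, y, z], ?_⟩, ?_⟩
  · intro i j hij
    fin_cases i <;> fin_cases j <;> simp_all
  · intro i j
    have h1' : ¬ G.Adj y x := fun h => h1 h.symm
    have h2' : ¬ G.Adj z y := fun h => h2 h.symm
    have h3' : ¬ G.Adj z x := fun h => h3 h.symm
    show G.Adj (![x, y, z] i) (![x, y, z] j) ↔ (⊥ : SimpleGraph (Fin 3)).Adj i j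
    fin_cases i <;> fin_cases j <;> simp_all

section main

variable [Fintype V] [DecidableEq V] {m : ℕ}

/-- proper colouring, as a plain function -/
def Proper (G : SimpleGraph V) (c : V → Fin m) : Prop := ∀ u v, G.Adj u v → c u ≠ c v

lemma class_le_two (hG : NoTriple G) {c : V → Fin m} (hc : Proper G c) {x y z : V}
    (hxy : x ≠ y) (hxz : x ≠ z) (h1 : c x = c y) (h2 : c x = c z) : y = z := by
  by_contra hyz
  rcases hG x y z hxy hyz hxz with h | h | h
  · exact hc _ _ h h1
  · exact hc _ _ h (h1.symm.trans h2)
  · exact hc _ _ h h2

/-- weight of a vertex: `1` if its class has another element, `2` otherwise -/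
def wt (c : V → Fin m) (x : V) : ℕ := if ∃ y, y ≠ x ∧ c y = c x then 1 else 2

lemma sum_wt (hG : NoTriple G) {c : V → Fin m} (hc : Proper G c) :
    ∑ x, wt c x = 2 * (univ.image c).card := by
  rw [← Finset.sum_fiberwise_of_maps_to (s := univ) (t := univ.image c) (g := c)
    (fun x hx => mem_image_of_mem c hx)]
  have : ∀ a ∈ univ.image c, ∑ x ∈ univ with c x = a, wt c x = 2 := by
    intro a ha
    obtain ⟨x, -, rfl⟩ := mem_image.mp ha
    by_cases hx : ∃ y, y ≠ x ∧ c y = c x
    · obtain ⟨y, hyx, hy⟩ := hx
      have e : (univ.filter (fun z => c z = c x)) = {x, y} := by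
        ext z
        simp only [mem_filter, mem_univ, true_and, mem_insert, mem_singleton]
        constructor
        · intro hz
          by_cases hzx : z = x
          · exact Or.inl hzx
          · right
            exact (class_le_two hG hc (Ne.symm hyx) (Ne.symm hzx) hy.symm hz.symm).symm
        · rintro (rfl | rfl)
          · rfl
          · exact hy
      rw [e, sum_pair hyx.symm]
      have w1 : wt c x = 1 := by
        unfold wt
        rw [if_pos ⟨y, hyx, hy⟩]
      have w2 : wt c y = 1 := by
        unfold wt
        rw [if_pos ⟨x, hyx.symm, hy.symm⟩]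
      rw [w1, w2]
    · have e : (univ.filter (fun z => c z = c x)) = {x} := by
        ext z
        simp only [mem_filter, mem_univ, true_and, mem_singleton]
        constructor
        · intro hz
          by_contra hzx
          exact hx ⟨z, hzx, hz⟩
        · rintro rfl
          rfl
      rw [e, sum_singleton]
      unfold wt
      rw [if_neg hx]
  rw [Finset.sum_congr rfl this, sum_const, smul_eq_mul, mul_comm]

/-- common monochromatic pairs -/
def com (c γ : V → Fin m) : Finset (V × V) :=
  univ.filter (fun p => p.1 ≠ p.2 ∧ c p.1 = c p.2 ∧ γ p.1 = γ p.2)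

/-- If `x` is alone in its `c`-class and has a `γ`-partner, we can increase the number of common
pairs. -/
lemma improve_alone (hG : NoTriple G) {c γ : V → Fin m} (hc : Proper G c) (hγ : Proper G γ)
    {x y : V} (hxy : x ≠ y) (hxyγ : γ x = γ y) (halone : ∀ w, w ≠ x → c w ≠ c x) :
    ∃ c' : V → Fin m, Proper G c' ∧ KempeEquiv G c c' ∧ (com c γ).card < (com c' γ).card := by
  have h : ∀ w, G.Adj y w → c w ≠ c x := by
    intro w hw
    by_cases hwx : w = x
    · subst hwx
      exact absurd hxyγ.symm (hγ _ _ hw)
    · exact halone w hwx
  have hne : c x ≠ c y := (halone y hxy.symm).symm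
  refine ⟨Function.update c y (c x), single_proper hc h,
    Relation.ReflTransGen.single (single_step hc hne h), ?_⟩
  apply card_lt_card
  rw [ssubset_iff_of_subset]
  · refine ⟨(x, y), ?_, ?_⟩
    · simp only [com, mem_filter, mem_univ, true_and]
      refine ⟨hxy, ?_, hxyγ⟩
      rw [Function.update_self, Function.update_of_ne hxy]
    · simp only [com, mem_filter, mem_univ, true_and]
      rintro ⟨-, h1, -⟩
      exact hne h1
  · rintro ⟨p, q⟩ hpq
    simp only [com, mem_filter, mem_univ, true_and] at hpq ⊢
    obtain ⟨h1, h2, h3⟩ := hpq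
    refine ⟨h1, ?_, h3⟩
    have hp : p ≠ y := by
      rintro rfl
      have := class_le_two hG hγ hxy.symm h1 hxyγ.symm h3
      subst this
      exact hne h2.symm
    have hq : q ≠ y := by
      rintro rfl
      have := class_le_two hG hγ hxy.symm h1.symm hxyγ.symm h3.symm
      subst this
      exact hne h2
    rw [Function.update_of_ne hp, Function.update_of_ne hq]
    exact h2

/-- The improvement step. -/
lemma improve (hG : NoTriple G) {c γ : V → Fin m} (hc : Proper G c) (hγ : Proper G γ)
    (hcard : (univ.image γ).card < m)
    (hne : ∃ x y : V, γ x = γ y ∧ c x ≠ c y) :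
    ∃ c' : V → Fin m, Proper G c' ∧ KempeEquiv G c c' ∧ (com c γ).card < (com c' γ).card := by
  by_cases hsurj : Function.Surjective c
  · -- some vertex is alone for `c` and paired for `γ`
    have himg : univ.image c = (univ : Finset (Fin m)) := by
      ext a
      simp only [mem_image, mem_univ, true_and, iff_true]
      exact hsurj a
    have h1 := sum_wt hG hc
    have h2 := sum_wt hG hγ
    rw [himg, card_univ, Fintype.card_fin] at h1
    have hlt : ∑ x, wt γ x < ∑ x, wt c x := by omega
    obtain ⟨x, -, hx⟩ := Finset.exists_lt_of_sum_lt hlt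
    have hγx : ∃ y, y ≠ x ∧ γ y = γ x := by
      by_contra hcon
      have : wt γ x = 2 := by
        unfold wt
        rw [if_neg hcon]
      have h3 : wt c x ≤ 2 := by
        unfold wt
        split_ifs <;> omega
      omega
    have hcx : ¬ ∃ y, y ≠ x ∧ c y = c x := by
      intro hcon
      have : wt c x = 1 := by
        unfold wt
        rw [if_pos hcon]
      have h3 : 1 ≤ wt γ x := by
        unfold wt
        split_ifs <;> omega
      omega
    obtain ⟨y, hyx, hy⟩ := hγx
    push Not at hcx
    exact improve_alone hG hc hγ hyx.symm hy.symm hcx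
  · -- there is an unused colour
    simp only [Function.Surjective, not_forall, not_exists] at hsurj
    obtain ⟨u, hu⟩ := hsurj
    obtain ⟨x, y, hxyγ, hxyc⟩ := hne
    have hxy : x ≠ y := by
      rintro rfl
      exact hxyc rfl
    have h1 : ∀ w, G.Adj x w → c w ≠ u := fun w _ => hu w
    have hp := single_proper hc h1
    have hs := single_step hc (Ne.symm (hu x)) h1
    have halone : ∀ w, w ≠ x → Function.update c x u w ≠ Function.update c x u x := by
      intro w hw
      rw [Function.update_self, Function.update_of_ne hw]
      exact hu w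
    obtain ⟨c', hc', he, hlt⟩ := improve_alone hG hp hγ hxy hxyγ halone
    refine ⟨c', hc', (Relation.ReflTransGen.single hs).trans he, lt_of_le_of_lt ?_ hlt⟩
    apply card_le_card
    rintro ⟨p, q⟩ hpq
    simp only [com, mem_filter, mem_univ, true_and] at hpq ⊢
    obtain ⟨g1, g2, g3⟩ := hpq
    refine ⟨g1, ?_, g3⟩
    have hp : p ≠ x := by
      rintro rfl
      have := class_le_two hG hγ hxy g1 hxyγ g3
      subst this
      exact hxyc g2
    have hq : q ≠ x := by
      rintro rfl
      have := class_le_two hG hγ hxy g1.symm hxyγ g3.symm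
      subst this
      exact hxyc g2.symm
    rw [Function.update_of_ne hp, Function.update_of_ne hq]
    exact g2

/-- Every colouring is Kempe equivalent to one that is constant on the classes of `γ`. -/
lemma reach (hG : NoTriple G) {γ : V → Fin m} (hγ : Proper G γ)
    (hcard : (univ.image γ).card < m) :
    ∀ (n : ℕ) (c : V → Fin m), Proper G c → Fintype.card (V × V) - (com c γ).card ≤ n →
      ∃ c' : V → Fin m, Proper G c' ∧ KempeEquiv G c c' ∧ ∀ x y, γ x = γ y → c' x = c' y := by
  intro n
  induction n with
  | zero =>
    intro c hc hn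
    by_cases hne : ∃ x y : V, γ x = γ y ∧ c x ≠ c y
    · obtain ⟨c', -, -, hlt⟩ := improve hG hc hγ hcard hne
      have := card_le_univ (com c' γ)
      omega
    · push Not at hne
      exact ⟨c, hc, Relation.ReflTransGen.refl, hne⟩
  | succ n ih =>
    intro c hc hn
    by_cases hne : ∃ x y : V, γ x = γ y ∧ c x ≠ c y
    · obtain ⟨c', hc', he, hlt⟩ := improve hG hc hγ hcard hne
      have := card_le_univ (com c' γ)
      obtain ⟨c'', hc'', he', hfin⟩ := ih c' hc' (by omega)
      exact ⟨c'', hc'', he.trans he', hfin⟩
    · push Not at hne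
      exact ⟨c, hc, Relation.ReflTransGen.refl, hne⟩

/-- Two functions with the same kernel differ by a permutation of the (finite) codomain. -/
lemma exists_perm {γ c : V → Fin m} (h : ∀ x y, γ x = γ y ↔ c x = c y) :
    ∃ π : Equiv.Perm (Fin m), ∀ v, c v = π (γ v) := by
  classical
  -- the bijection between the images
  have hex : ∀ a : {a // a ∈ Set.range γ}, ∃ v, γ v = a.1 := fun a => a.2
  choose s hs using hex
  let e : {a // a ∈ Set.range γ} ≃ {a // a ∈ Set.range c} :=
    Equiv.ofBijective (fun a => ⟨c (s a), ⟨s a, rfl⟩⟩) (by
      constructor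
      · intro a b hab
        have := (h _ _).mpr (congrArg Subtype.val hab)
        rw [hs, hs] at this
        exact Subtype.ext this
      · rintro ⟨b, v, rfl⟩
        refine ⟨⟨γ v, v, rfl⟩, Subtype.ext ?_⟩
        exact (h _ _).mp (hs ⟨γ v, v, rfl⟩))
  refine ⟨e.extendSubtype, fun v => ?_⟩
  rw [Equiv.extendSubtype_apply_of_mem e (γ v) ⟨v, rfl⟩]
  show c v = c (s _)
  exact ((h _ _).mp (hs ⟨γ v, v, rfl⟩)).symm

end main

theorem main {V : Type u} [Fintype V] (G : SimpleGraph V)
    (hG : IsEmpty ((⊥ : SimpleGraph (Fin 3)) ↪g G)) (k : ℕ) (hk : G.Colorable k)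
    (α β : G.Coloring (Fin (k + 1))) : KempeEquiv G α β := by
  classical
  have hNT := noTriple_of hG
  -- a proper colouring with the least number of colours used
  have hex : ∃ n, ∃ γ : V → Fin (k + 1), Proper G γ ∧ (univ.image γ).card = n :=
    ⟨_, α, fun u v h => α.valid h, rfl⟩
  obtain ⟨γ, hγ, hγcard⟩ := Nat.find_spec hex
  have hmin : ∀ c : V → Fin (k + 1), Proper G c → (univ.image γ).card ≤ (univ.image c).card := by
    intro c hc
    rw [hγcard]
    exact Nat.find_min' hex ⟨c, hc, rfl⟩
  have hlt : (univ.image γ).card < k + 1 := by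
    obtain ⟨δ⟩ := hk
    have h1 := hmin (fun v => (δ v).castSucc) (by
      intro u v h he
      exact δ.valid h (Fin.castSucc_injective _ he))
    have h2 : (univ.image (fun v => (δ v).castSucc)).card ≤ k := by
      have : univ.image (fun v => (δ v).castSucc) ⊆
          (univ : Finset (Fin k)).image Fin.castSucc := by
        intro a ha
        obtain ⟨v, -, rfl⟩ := mem_image.mp ha
        exact mem_image_of_mem _ (mem_univ _)
      refine (card_le_card this).trans ?_
      refine card_image_le.trans ?_
      simp
    omega
  have key : ∀ c : V → Fin (k + 1), Proper G c → ∃ π : Equiv.Perm (Fin (k + 1)),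
      KempeEquiv G c (fun v => π (γ v)) := by
    intro c hc
    obtain ⟨c', hc', he, hfin⟩ := reach hNT hγ hlt _ c hc le_rfl
    have hker : ∀ x y, γ x = γ y ↔ c' x = c' y := by
      intro x y
      refine ⟨hfin x y, fun hxy => ?_⟩
      -- the induced surjection from the image of `γ` onto the image of `c'` is injective
      have hs : ∀ a : Fin (k + 1), a ∈ univ.image γ → ∃ v, γ v = a := by
        intro a ha
        obtain ⟨v, -, hv⟩ := mem_image.mp ha
        exact ⟨v, hv⟩
      have : Nonempty V := ⟨x⟩
      choose! s hs using hs
      have h1 : (univ.image γ).image (fun a => c' (s a)) = univ.image c' := by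
        ext b
        simp only [mem_image, mem_univ, true_and]
        constructor
        · rintro ⟨a, -, rfl⟩
          exact ⟨_, rfl⟩
        · rintro ⟨v, rfl⟩
          refine ⟨γ v, ⟨v, rfl⟩, ?_⟩
          exact hfin _ _ (hs (γ v) (mem_image_of_mem _ (mem_univ _)))
      have h2 : ((univ.image γ).image (fun a => c' (s a))).card = (univ.image γ).card := by
        apply le_antisymm card_image_le
        rw [h1]
        exact hmin c' hc'
      have hinj := card_image_iff.mp h2
      have hx := hs (γ x) (mem_image_of_mem _ (mem_univ _))
      have hy := hs (γ y) (mem_image_of_mem _ (mem_univ _))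
      have : (fun a => c' (s a)) (γ x) = (fun a => c' (s a)) (γ y) := by
        show c' (s (γ x)) = c' (s (γ y))
        rw [hfin _ _ hx, hfin _ _ hy, hxy]
      exact hinj (by simp) (by simp) this
    obtain ⟨π, hπ⟩ := exists_perm hker
    refine ⟨π, ?_⟩
    have : c' = fun v => π (γ v) := funext hπ
    rwa [this] at he
  -- Kempe equivalence is reached from both sides
  obtain ⟨π, hπ⟩ := key α (fun u v h => α.valid h)
  obtain ⟨ρ, hρ⟩ := key β (fun u v h => β.valid h)
  have h1 : KempeEquiv G γ (fun v => π (γ v)) := perm_equiv π γ
  have h2 : KempeEquiv G γ (fun v => ρ (γ v)) := perm_equiv ρ γ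
  exact hπ.trans ((equiv_symm h1).trans (h2.trans (equiv_symm hρ)))

end Pool.Agent.Q271.KR.ThreeK
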